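import Mathlib
import Pool.Agent.Helper9.SK.St

/-!
# Project SK (MP_2d2425_nt), module FN1: one dyadic range
-/

set_option autoImplicit false

noncomputable section

namespace Pool.Agent.Helper76.SK

open Finset ArithmeticFunction MeasureTheory
open Pool.Agent.Helper48.BK (ex th Pz Vz lz gs Sx Apx)
open Pool.Agent.Helper60.GP (IsB II Err JJ)
open Pool.Agent.Helper15.AB (Th)
open Pool.Agent.Helper58.SU (dsc StWinu)
open Pool.Agent.Helper9.SK

private theorem xx_yy (κ : ℝ) {X : ℕ} (hX : 0 < X) : xx κ X * yy κ X = (X : ℝ) ^ (κ / 2) / 10 := by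
  have h0 : (0 : ℝ) < X := by exact_mod_cast hX
  unfold xx yy
  rw [mul_div_assoc', ← Real.rpow_add h0]
  congr 2
  ring

/-- the count: `c` members with `D² ≥ w²/(4L²)` -/
private theorem count {X : ℕ} {S : Finset ℕ} {D : ℕ → ℝ} {w L : ℝ} {A : ℕ} (hS : S ⊆ Ioc X (2 * X)) (hw : 0 < w)
    (hL : 22 ≤ L) (h : ∀ n ∈ S, D (2 * n) ≤ -(w / (2 * L)))
    (hs : ∑ v ∈ Ioc (2 * X) (4 * X), D v ^ 2 ≤ X * w ^ 2 / L ^ (A + 4)) :
    (S.card : ℝ) ≤ X / L ^ A := by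
  have hL0 : 0 < L := by linarith
  have h1 : ∑ n ∈ S, D (2 * n) ^ 2 ≤ ∑ v ∈ Ioc (2 * X) (4 * X), D v ^ 2 := by
    have h2 : ∑ n ∈ S, D (2 * n) ^ 2 = ∑ v ∈ S.image (fun n => 2 * n), D v ^ 2 := by
      rw [sum_image]
      intro a _ b _ hab
      simp only at hab
      omega
    rw [h2]
    refine sum_le_sum_of_subset_of_nonneg ?_ (fun i _ _ => sq_nonneg _)
    intro v hv
    obtain ⟨n, hn, rfl⟩ := mem_image.1 hv
    have h3 := mem_Ioc.1 (hS hn)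
    refine mem_Ioc.2 ⟨by omega, by omega⟩
  have h4 : (S.card : ℝ) * (w ^ 2 / (4 * L ^ 2)) ≤ ∑ n ∈ S, D (2 * n) ^ 2 := by
    rw [← nsmul_eq_mul]
    refine card_nsmul_le_sum _ _ _ (fun n hn => ?_)
    have h5 := h n hn
    have h6 : 0 < w / (2 * L) := by positivity
    have h7 : w ^ 2 / (4 * L ^ 2) = (w / (2 * L)) ^ 2 := by
      rw [div_pow]
      congr 1
      ring
    rw [h7]
    nlinarith
  have h8 : (S.card : ℝ) * (w ^ 2 / (4 * L ^ 2)) ≤ X * w ^ 2 / L ^ (A + 4) := h4.trans (h1.trans hs)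
  have hw2 : 0 < w ^ 2 := by positivity
  have hLA : 0 < L ^ A := by positivity
  have h9 : (S.card : ℝ) ≤ 4 * X / L ^ (A + 2) := by
    have h10 : (S.card : ℝ) * (w ^ 2 / (4 * L ^ 2)) * (4 * L ^ 2 / w ^ 2) ≤
        X * w ^ 2 / L ^ (A + 4) * (4 * L ^ 2 / w ^ 2) :=
      mul_le_mul_of_nonneg_right h8 (by positivity)
    have h11 : (S.card : ℝ) * (w ^ 2 / (4 * L ^ 2)) * (4 * L ^ 2 / w ^ 2) = S.card := by
      field_simp
    have h12 : X * w ^ 2 / L ^ (A + 4) * (4 * L ^ 2 / w ^ 2) = 4 * X / L ^ (A + 2) := by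
      rw [show A + 4 = (A + 2) + 2 by ring, pow_add L (A + 2) 2]
      field_simp
    rw [h11, h12] at h10
    exact h10
  refine h9.trans ?_
  rw [pow_add, div_le_div_iff₀ (by positivity) hLA]
  have h13 : (0 : ℝ) ≤ X := Nat.cast_nonneg X
  have h14 : 4 ≤ L ^ 2 := by nlinarith
  have h15 : 0 ≤ (X : ℝ) * L ^ A := by positivity
  nlinarith [mul_le_mul_of_nonneg_left h14 h15]

theorem hFN1 (hCir : StCir) (hLow : StLow) (hNum : StNum) (hBump : Pool.Agent.Helper60.GP.StBump) : StFn1 := by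
  intro κ hκ hκ1 A
  have hκ0 : 0 < κ := by linarith
  obtain ⟨ω, hω, hJ, -⟩ := hBump 1 one_pos
  obtain ⟨B, X₁, h1⟩ := hCir ω hω κ hκ hκ1 (A + 4)
  obtain ⟨X₂, h2⟩ := hLow ω hω hJ κ hκ0 hκ1 (B + 1)
  obtain ⟨X₃, h3⟩ := hNum ω hω κ hκ0 hκ1
  refine ⟨max (max X₁ X₂) (max X₃ ⌈Real.exp 22⌉₊), fun X hX => ?_⟩
  have g1 : X₁ ≤ X := le_trans (le_trans (le_max_left _ _) (le_max_left _ _)) hX
  have g2 : X₂ ≤ X := le_trans (le_trans (le_max_right _ _) (le_max_left _ _)) hX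
  have g3 : X₃ ≤ X := le_trans (le_trans (le_max_left _ _) (le_max_right _ _)) hX
  have g4 : ⌈Real.exp 22⌉₊ ≤ X := le_trans (le_trans (le_max_right _ _) (le_max_right _ _)) hX
  have g5 : Real.exp 22 ≤ X := (Nat.le_ceil _).trans (by exact_mod_cast g4)
  have hX0 : (0 : ℝ) < X := (Real.exp_pos _).trans_le g5
  have hXn : 0 < X := by exact_mod_cast hX0
  have hL : 22 ≤ Real.log X := by rwa [Real.le_log_iff_exp_le hX0]
  set L : ℝ := Real.log X with hLdef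
  have hL0 : 0 < L := by linarith
  have hB0 : 1 ≤ L ^ B := one_le_pow₀ (by linarith)
  -- the parameter of the sieve
  set z : ℕ := ⌈L ^ B⌉₊ + 1 with hz
  have hz1 : L ^ B ≤ z := by
    rw [hz, Nat.cast_add, Nat.cast_one]
    have := Nat.le_ceil (L ^ B)
    linarith
  have hz2 : (z : ℝ) ≤ L ^ (B + 1) := by
    rw [hz, Nat.cast_add, Nat.cast_one, pow_succ]
    have := (Nat.ceil_lt_add_one (by positivity : (0 : ℝ) ≤ L ^ B)).le
    nlinarith
  have hz3 : 2 ≤ z := by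
    have : 1 ≤ ⌈L ^ B⌉₊ := Nat.one_le_ceil_iff.2 (by positivity)
    omega
  have hw : xx κ X * yy κ X = (X : ℝ) ^ (κ / 2) / 10 := xx_yy κ hXn
  have hw0 : 0 < xx κ X * yy κ X := by rw [hw]; positivity
  have h4 := h1 X z g1 hz1 hz2
  refine count (D := fun v => rS ω (xx κ X) (yy κ X) th v - rS ω (xx κ X) (yy κ X) (lz z) v)
    (filter_subset _ _) hw0 hL ?_ h4
  intro n hn
  obtain ⟨hn1, hn2⟩ := mem_filter.1 hn
  have hn3 := mem_Ioc.1 hn1
  have h5 := h3 X (2 * n) g3 (by omega)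
  have h6 := h2 X z (2 * n) g2 hz3 hz2 (even_two_mul n)
  rw [← hLdef] at h5 h6
  have h7 : L ^ 3 * (({k : ℕ | 0 < k ∧ (k : ℝ) < (X : ℝ) ^ κ ∧
      (2 * n + sigma 1 k).Prime}.ncard : ℕ) : ℝ) ≤ 10 * (xx κ X * yy κ X) / L ^ 2 := by
    refine (mul_le_mul_of_nonneg_left hn2.le (by positivity)).trans (le_of_eq ?_)
    rw [hw]
    field_simp
  have h8 : 11 * (xx κ X * yy κ X) / L ^ 2 ≤ xx κ X * yy κ X / (2 * L) := by
    rw [div_le_div_iff₀ (by positivity) (by positivity)]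
    have : 0 ≤ (xx κ X * yy κ X) * L := by positivity
    nlinarith
  have h9 : xx κ X * yy κ X / L = 2 * (xx κ X * yy κ X / (2 * L)) := by
    field_simp
  have h10 : 10 * (xx κ X * yy κ X) / L ^ 2 + xx κ X * yy κ X / L ^ 2 = 11 * (xx κ X * yy κ X) / L ^ 2 := by
    ring
  show rS ω (xx κ X) (yy κ X) th (2 * n) - rS ω (xx κ X) (yy κ X) (lz z) (2 * n) ≤ -(xx κ X * yy κ X / (2 * L))
  linarith

end Pool.Agent.Helper76.SK
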